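import Pool.Agent.Results.MP_92892c_nt.TwoPartTwistsSqrtNegTwo
import Pool.Agent.Run7.h268.FN.Cong

/-!
# The weak conjecture of Birch and Swinnerton-Dyer, with the 2-part of the leading-term formula, for the
# quadratic twists of the curve with complex multiplication by `ℤ[√-2]`, by numbers with a fixed number
# of prime factors from an arbitrary dense set

`C_m : y² = x³ - 4 m x² + 2 m² x` is the quadratic twist by the squarefree number `m` of the curve
`y² = x³ - 4 x² + 2 x` of conductor `256` with complex multiplication by `ℤ[√-2]`; the prime factors of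
`m` are `1`, `3` or `5` modulo `8`. The 2-part of the formula, with
`z = #C_m(ℚ)_tors² L(C_m, 1) / (Ω ∏ c_p)` a unit at two, is: `C_m(ℚ)` is finite, `Ш(C_m/ℚ)[2^∞] = 0`,
`L(C_m, 1) ≠ 0`, and `z`, `1 / z` are integral at the primes above two. The team's theorem
`MP_92892c_nt/TwoPartTwistsSqrtNegTwo` says for which `m` this holds, and that the proportion
among all `m` of the class is `0.4194...`; almost all of these have about `(3/4) log log m` prime
factors.

Here the number of the prime factors is fixed, and they are taken from an arbitrary set `S` of primes.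
Let `P n = ∏_{i < (n+1)/2} (1 - 2^{-(2i+1)})`, the proportion of the invertible matrices among the
symmetric `n` times `n` matrices over the field with two elements: `1, 1/2, 1/2, 7/16, 7/16, 217/512, …`.
* Let `l ≥ 1`, and suppose that, for all large `Y`, `S` contains at least a positive proportion of the
  primes up to `Y` in the classes `3`, `5` modulo `8`, and (if `k > 0`) in the class `1` modulo `8`. The
  number of the `m ≤ X` with `k` prime factors `1` modulo `8` and `l` which are `3` or `5` modulo `8`,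
  all in `S`, has the order of magnitude `X (log log X)^(k+l-1) / log X`, and the 2-part of the formula
  holds with `z` a unit for exactly the proportion `P k`.
* If all prime factors are `1` modulo `8`, `b` of them `1` and `r` of them `9` modulo `16`, then the
  proportion is `P (b+r-1)` for odd `r`, `P (b+r-2)` for even `r > 0`, and zero for `r = 0`.
The conditions on `S` hold, for instance, for each residue class modulo an odd number. In particular the
weak conjecture holds for `C_m`, with both sides false (`C_m(ℚ)` is finite and `L(C_m, 1) ≠ 0`), for at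
least this proportion of the `m` of the family, minus `ε`, for all large `X`.

The proof. The matrix of quadratic symbols of the criterion is indexed by the prime factors `1` modulo
`8` only. For fixed numbers of prime factors from `S` almost all `m` have only large prime factors;
the large sieve for the quadratic symbols gives the equidistribution in boxes with a saving of a
power of the logarithm, for arbitrary subsets of the primes (`Pool/Agent/Run7/h268/FN`, on the
base of `Pool/Agent/V11291/FK`). The matrix is a random symmetric matrix in the first part; in the second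
part it is a random symmetric matrix with given row sums.
-/

set_option autoImplicit false

open Filter Topology

namespace Pool.Agent.Results.MP_8b7eba_nt.FixedNumberSqrtNegTwo

open Pool.Agent.Results.MP_92892c_nt.TwoPartTwistsSqrtNegTwo (E IsLFun anOrder TwoPart)
open Pool.Agent.TH841.NF.D (Sha)

/-- the number of the prime factors of `m` with the property `P` -/
noncomputable def number (P : ℕ → Prop) (m : ℕ) : ℕ := Nat.card {p : ℕ // p.Prime ∧ p ∣ m ∧ P p}

/-- `m` is squarefree, and all its prime factors are `1`, `3` or `5` modulo `8` and in `S` -/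
def InClass (S : Set ℕ) (m : ℕ) : Prop :=
  Squarefree m ∧ ∀ p : ℕ, p.Prime → p ∣ m → (p % 8 = 1 ∨ p % 8 = 3 ∨ p % 8 = 5) ∧ p ∈ S

/-- `m` is in the class, `k` of its prime factors are `1` modulo `8`, and `l` are `3` or `5` -/
def Family (S : Set ℕ) (k l m : ℕ) : Prop :=
  InClass S m ∧ number (fun p => p % 8 = 1) m = k ∧ number (fun p => p % 8 = 3 ∨ p % 8 = 5) m = l

/-- `m` is in the class, `b` of its prime factors are `1` modulo `16`, `r` are `9` modulo `16`, and there
are no others -/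
def SplitFamily (S : Set ℕ) (b r m : ℕ) : Prop :=
  InClass S m ∧ number (fun p => p % 8 = 3 ∨ p % 8 = 5) m = 0 ∧
    number (fun p => p % 16 = 1) m = b ∧ number (fun p => p % 16 = 9) m = r

/-- at least a positive proportion of the primes up to `Y` is in `S` and has the property `P`, for all
large `Y` -/
def Dense (S : Set ℕ) (P : ℕ → Prop) : Prop := ∃ (δ : ℝ) (Y₀ : ℕ), 0 < δ ∧ ∀ Y : ℕ, Y₀ ≤ Y →
  δ * (Y / Real.log Y) ≤ (Nat.card {p : ℕ // p ≤ Y ∧ p.Prime ∧ p ∈ S ∧ P p} : ℝ)

/-- the number of the `m` with `1 ≤ m ≤ X` and `Q m` -/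
noncomputable def count (Q : ℕ → Prop) (X : ℕ) : ℕ := Nat.card {m : ℕ // 1 ≤ m ∧ m ≤ X ∧ Q m}

/-- `F` has the order of magnitude `X (log log X)^(n-1) / log X`, and the 2-part of the formula holds
for exactly the proportion `a` of the `m` in `F` -/
def Law (F : ℕ → Prop) (n : ℕ) (a : ℝ) : Prop :=
  (∃ (c C : ℝ) (X₀ : ℕ), 0 < c ∧ 0 < C ∧ ∀ X : ℕ, X₀ ≤ X →
    c * (X * Real.log (Real.log X) ^ (n - 1) / Real.log X) ≤ (count F X : ℝ) ∧
    (count F X : ℝ) ≤ C * (X * Real.log (Real.log X) ^ (n - 1) / Real.log X)) ∧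
  Tendsto (fun X : ℕ => (count (fun m => F m ∧ TwoPart m) X : ℝ) / (count F X : ℝ)) atTop (𝓝 a)

/-- `P n = ∏_{i < (n+1)/2} (1 - 2^{-(2i+1)})` -/
noncomputable def P (n : ℕ) : ℝ :=
  ∏ i ∈ Finset.range ((n + 1) / 2), (1 - (1 / 2 : ℝ) ^ (2 * i + 1))

/-- the weak conjecture for `C_m`, both sides false: `C_m(ℚ)` is finite, and the L-function is entire
and not zero at `1` -/
def WeakZero (m : ℕ) : Prop :=
  Finite (E m).toAffine.Point ∧ ∃ F : ℂ → ℂ, IsLFun m F ∧ F 1 ≠ 0

section proof

open Run7.h268.FN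
open Pool.Agent.V11291.FK (PG Dn)
open Run7.h843.R (f16)

/-- the marked primes -/
def mr (p : ℕ) : Prop := p % 8 = 1

/-- the primes of the class -/
def AC (S : Set ℕ) (p : ℕ) : Prop := p.Prime ∧ (p % 8 = 1 ∨ p % 8 = 3 ∨ p % 8 = 5) ∧ p ∈ S

/-- the kinds of the primes for the first part -/
def c1 (p : ℕ) : ℕ := if p % 8 = 1 then 1 else 0

/-- the kinds of the primes for the second part -/
def c2 (p : ℕ) : ℕ := if p % 8 = 1 then (if p % 16 = 1 then 1 else 2) else 0

theorem c1_iff (p : ℕ) : (c1 p = 1 ↔ p % 8 = 1) ∧ (c1 p = 0 ↔ ¬ p % 8 = 1) := by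
  unfold c1
  by_cases h : p % 8 = 1
  · simp [h]
  · simp [h]

theorem c2_iff (p : ℕ) : (c2 p = 1 ↔ p % 16 = 1) ∧ (c2 p = 2 ↔ p % 16 = 9) ∧
    (c2 p = 0 ↔ ¬ p % 8 = 1) := by
  unfold c2
  by_cases h : p % 8 = 1
  · by_cases h2 : p % 16 = 1
    · simp [h, h2]
    · have h3 : p % 16 = 9 := by omega
      simp [h, h3]
  · have h3 : ¬ p % 16 = 1 := by omega
    have h4 : ¬ p % 16 = 9 := by omega
    simp [h, h3, h4]

theorem adm1 (S : Set ℕ) : Adm (AC S) c1 mr (fun r => r = 1) where
  prime _ h := h.1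
  odd p h := by
    rintro rfl
    obtain ⟨-, h, -⟩ := h
    omega
  four p _ h := by
    unfold mr at h
    omega
  mark p _ := (c1_iff p).1.symm

theorem adm2 (S : Set ℕ) : Adm (AC S) c2 mr (fun r => r ≠ 0) where
  prime _ h := h.1
  odd p h := by
    rintro rfl
    obtain ⟨-, h, -⟩ := h
    omega
  four p _ h := by
    unfold mr at h
    omega
  mark p _ := by
    rw [Ne, (c2_iff p).2.2, not_not]
    exact Iff.rfl

theorem gd_eq (Q : Finset ℕ) : Pool.Agent.Y703.CQ.Gd f16 Q ↔ GdM mr f16 Q := by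
  have e : ∀ x : ℕ → ZMod 2, Pool.Agent.Y703.CQ.cu x = cuM mr x := by
    intro x
    funext q
    unfold Pool.Agent.Y703.CQ.cu cuM mr
    by_cases h : q % 8 = 1
    · rw [if_pos h, if_pos h]
    · rw [if_neg h, if_neg h]
  unfold Pool.Agent.Y703.CQ.Gd GdM Pool.Agent.Y703.CQ.Sol SolM
  simp only [e]
  exact Iff.rfl

theorem class_of {S : Set ℕ} {m : ℕ} (h : InClass S m) :
    Pool.Agent.Results.MP_92892c_nt.TwoPartTwistsSqrtNegTwo.Class m :=
  ⟨h.1, fun p hp hd => (h.2 p hp hd).1⟩

theorem two_gdM {S : Set ℕ} {m : ℕ} (h : InClass S m) : TwoPart m ↔ GdM mr f16 m.primeFactors := by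
  have hc := class_of h
  rw [(Pool.Agent.Results.MP_92892c_nt.TwoPartTwistsSqrtNegTwo.core hc).2.1,
    Pool.Agent.Results.MP_92892c_nt.TwoPartTwistsSqrtNegTwo.crit_iff hc, ← gd_eq]
  exact Pool.Agent.Results.MP_92892c_nt.TwoPartTwistsSqrtNegTwo.ns_iff
    (Pool.Agent.Results.MP_92892c_nt.TwoPartTwistsSqrtNegTwo.class_iff.1 hc).2 _ fun _ _ _ => rfl

theorem class_iff {S : Set ℕ} {m : ℕ} : InClass S m ↔ Squarefree m ∧ ∀ p ∈ m.primeFactors, AC S p := by
  constructor
  · rintro ⟨h1, h2⟩
    exact ⟨h1, fun p hp => ⟨Nat.prime_of_mem_primeFactors hp,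
      h2 p (Nat.prime_of_mem_primeFactors hp) (Nat.dvd_of_mem_primeFactors hp)⟩⟩
  · rintro ⟨h1, h2⟩
    exact ⟨h1, fun p hp hd => (h2 p (Nat.mem_primeFactors.2 ⟨hp, hd, h1.ne_zero⟩)).2⟩

theorem fam1 {S : Set ℕ} {k l m : ℕ} : Family S k l m ↔ FamN (AC S) c1 (ty k l 1 0) m := by
  rw [famN_iff one_ne_zero]
  unfold Family number
  rw [class_iff, and_assoc]
  refine and_congr_right fun h1 => and_congr_right fun h2 => ?_
  simp only [(c1_iff _).1, (c1_iff _).2]
  rw [card_pf_congr h1.ne_zero (P := fun p => p % 8 = 3 ∨ p % 8 = 5) (Q := fun p => ¬ p % 8 = 1)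
    fun p hp => by have := (h2 p hp).2.1; omega]
  constructor
  · rintro ⟨h3, h4⟩
    exact ⟨fun p _ => em _, h3, h4⟩
  · rintro ⟨-, h3, h4⟩
    exact ⟨h3, h4⟩

theorem fam2 {S : Set ℕ} {b r m : ℕ} : SplitFamily S b r m ↔ FamN (AC S) c2 (ty b r 1 2) m := by
  rw [famN_iff (by norm_num : 1 ≠ 2)]
  unfold SplitFamily number
  rw [class_iff, and_assoc]
  refine and_congr_right fun h1 => and_congr_right fun h3 => ?_
  simp only [(c2_iff _).1, (c2_iff _).2.1]
  rw [card_pf_zero h1.ne_zero]
  have e3 : (∀ p ∈ m.primeFactors, ¬ (p % 8 = 3 ∨ p % 8 = 5)) ↔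
      ∀ p ∈ m.primeFactors, p % 16 = 1 ∨ p % 16 = 9 := by
    refine forall₂_congr fun p hp => ?_
    have := (h3 p hp).2.1
    omega
  rw [e3]

theorem law_of {S : Set ℕ} {F : ℕ → Prop} {cl : ℕ → ℕ} {M : ℕ → Prop} {a b u v : ℕ} {t : ℝ}
    (hA : Adm (AC S) cl mr M) (h : ∀ m, F m ↔ FamN (AC S) cl (ty a b u v) m)
    (hF : ∀ m, F m → InClass S m) (hab : 1 ≤ a + b) (h0 : 0 ≤ t) (h1 : t ≤ 1)
    (ht : @Prob (Fin a ⊕ Fin b) _ (ordS a b) (AC S) cl M f16 (ty a b u v) t)
    (hD : ∀ i, Dn (PG (AC S) cl (ty a b u v) i)) : Law F (a + b) t := by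
  have e : F = FamN (AC S) cl (ty a b u v) := funext fun m => propext (h m)
  have e2 : (fun m => F m ∧ TwoPart m) =
      fun m => FamN (AC S) cl (ty a b u v) m ∧ GdM mr f16 m.primeFactors := by
    funext m
    rw [← e]
    exact propext (and_congr_right fun hm => two_gdM (hF m hm))
  unfold Law
  rw [e2, e]
  exact law_ty hA hab h0 h1 ht hD

theorem dn_of_dense {S : Set ℕ} {Q : ℕ → Prop} {R : ℕ → Prop} (h : Dense S Q)
    (hR : ∀ p, p.Prime → p ∈ S → Q p → R p) : Dn R := by
  obtain ⟨δ, Y₀, hδ, h⟩ := h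
  exact dn_of hδ h fun p hp => hR p hp.1 hp.2.1 hp.2.2

theorem law_mixed (S : Set ℕ) (k l : ℕ) (hl : 1 ≤ l) (hk : 0 < k → Dense S fun p => p % 8 = 1)
    (hi : Dense S fun p => p % 8 = 3 ∨ p % 8 = 5) : Law (Family S k l) (k + l) (P k) := by
  let _ : LinearOrder (Fin k ⊕ Fin l) := ordS k l
  refine law_of (adm1 S) (fun m => fam1) (fun m hm => hm.1) (by omega) (sp_nonneg k)
    (sp_le_one k) ?_ ?_
  · intro p _
    have h1 := card_JM (fun r => r = 1) k l 1 0 rfl zero_ne_one
    have h2 := PrT_unmarked Pool.Agent.Y839.CQ.t_SYM (JM (fun r => r = 1) (ty k l 1 0))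
      ⟨Sum.inr ⟨0, by omega⟩, fun h => by
        unfold JM at h
        simp only [Finset.mem_filter] at h
        exact absurd h.2 zero_ne_one⟩ (fun i => f16 (p i))
    rw [h1] at h2
    exact h2
  · rintro (i | i)
    · refine dn_of_dense (hk (by have := i.2; omega)) fun p hp hS hs => ⟨⟨hp, Or.inl hs, hS⟩, ?_⟩
      exact (c1_iff p).1.2 hs
    · refine dn_of_dense hi fun p hp hS hs => ⟨⟨hp, Or.inr hs, hS⟩, ?_⟩
      exact (c1_iff p).2.2 (by omega)

theorem law_split (S : Set ℕ) (b r : ℕ) (hbr : 1 ≤ b + r)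
    (hb : 0 < b → Dense S fun p => p % 16 = 1) (hr : 0 < r → Dense S fun p => p % 16 = 9) :
    Law (SplitFamily S b r) (b + r)
      (if r = 0 then 0 else if Odd r then P (b + r - 1) else P (b + r - 2)) := by
  have h01 := prp_mem b r
  refine law_of (adm2 S) (fun m => fam2) (fun m hm => hm.1) hbr h01.1 h01.2 ?_ ?_
  · refine prob_all f16 one_ne_zero two_ne_zero hbr (fun p _ h => ?_) fun p _ h => ?_
    · have h2 := (c2_iff p).1.1 h
      unfold Run7.h843.R.f16
      rw [if_neg (by omega)]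
    · have h2 := (c2_iff p).2.1.1 h
      unfold Run7.h843.R.f16
      rw [if_pos (by omega)]
  · rintro (i | i)
    · refine dn_of_dense (hb (by have := i.2; omega)) fun p hp hS hs =>
        ⟨⟨hp, Or.inl (by omega), hS⟩, ?_⟩
      exact (c2_iff p).1.2 hs
    · refine dn_of_dense (hr (by have := i.2; omega)) fun p hp hS hs =>
        ⟨⟨hp, Or.inl (by omega), hS⟩, ?_⟩
      exact (c2_iff p).2.1.2 hs

theorem dense_class {q c : ℕ} (hq : Odd q) (hc : Nat.Coprime c q) (Q : ℕ → Prop) (r : ℕ)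
    (hr : Nat.Coprime r 16) (hr16 : r < 16) (hQ : ∀ p, p % 16 = r → Q p) :
    Dense {p | p % q = c % q} Q := by
  have hq0 : 1 ≤ q := hq.pos
  have hq16 : Nat.Coprime q 16 := by
    have h2 : Nat.Coprime q 2 := Nat.coprime_two_right.2 hq
    exact Nat.Coprime.pow_right 4 h2
  have h := Run7.h268.FN.dn_class (q := q) (c := c) (m := 16) (r := r) (by norm_num) hq16 hq0 hc hr hr16
  have h2 : Pool.Agent.V11291.FK.Dn fun p =>
      p.Prime ∧ p ∈ {p | p % q = c % q} ∧ Q p := by
    obtain ⟨δ, Y₀, hδ, h⟩ := h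
    refine ⟨δ, Y₀, hδ, fun Y hY => (h Y hY).trans ?_⟩
    refine Nat.cast_le.2 (Finset.card_le_card fun p hp => ?_)
    simp only [Finset.mem_filter] at hp ⊢
    obtain ⟨h0, h1, h2, h3⟩ := hp
    exact ⟨h0, h1, h2, hQ p h3⟩
  exact Run7.h268.FN.card_of_dn h2

theorem weak_of {m : ℕ} (h : TwoPart m) : WeakZero m := by
  obtain ⟨h1, -, F, h2, h3, -⟩ := h
  exact ⟨h1, F, h2, h3⟩

theorem ev_weak {F : ℕ → Prop} {n : ℕ} {a : ℝ} (h : Law F n a) {ε : ℝ} (hε : 0 < ε) :
    ∀ᶠ X : ℕ in atTop, (a - ε) * (count F X : ℝ) ≤ (count (fun m => F m ∧ WeakZero m) X : ℝ) := by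
  filter_upwards [h.2.eventually (lt_mem_nhds (show a - ε < a by linarith))] with X hX
  have h2 : (count (fun m => F m ∧ TwoPart m) X : ℝ) ≤
      (count (fun m => F m ∧ WeakZero m) X : ℝ) := by
    unfold count
    rw [card_Icc, card_Icc]
    refine Nat.cast_le.2 (Finset.card_le_card fun D hD => ?_)
    simp only [Finset.mem_filter] at hD ⊢
    exact ⟨hD.1, hD.2.1, weak_of hD.2.2⟩
  refine le_trans ?_ h2
  rcases (Nat.cast_nonneg (α := ℝ) (count F X)).eq_or_lt with h0 | h0
  · rw [← h0, mul_zero]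
    positivity
  · exact ((lt_div_iff₀ h0).1 hX).le

end proof

theorem card_symm_matrices (n : ℕ) :
    (Nat.card {M : Matrix (Fin n) (Fin n) (ZMod 2) // M.IsSymm ∧ M.det ≠ 0} : ℝ) =
      P n * Nat.card {M : Matrix (Fin n) (Fin n) (ZMod 2) // M.IsSymm} := by
  rw [Pool.Agent.Y839.CQ.t_SYM n, Pool.Agent.Y219.CQ.card_symm]
  push_cast
  exact mul_comm _ _

/-- **The weak conjecture and the 2-part of the formula for the twists of the curve with complex
multiplication by `ℤ[√-2]`, by the numbers with a fixed number of prime factors from a set of positive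
density.** -/
theorem result :
    -- the numbers `P n`
    (∀ n : ℕ, (Nat.card {M : Matrix (Fin n) (Fin n) (ZMod 2) // M.IsSymm ∧ M.det ≠ 0} : ℝ) =
      P n * Nat.card {M : Matrix (Fin n) (Fin n) (ZMod 2) // M.IsSymm}) ∧
    -- a single number
    (∀ (S : Set ℕ) (m : ℕ), InClass S m → (TwoPart m → WeakZero m) ∧
      (TwoPart m ↔ Finite (E m).toAffine.Point ∧ ∀ x : Sha (E m), x + x = 0 → x = 0) ∧
      ∃ F : ℂ → ℂ, IsLFun m F ∧
        (∃ k : ℤ, Odd k ∧ _root_.IsIntegral ℤ (k * anOrder m (F 1))) ∧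
        ∀ (Γ : Type) [LinearOrderedCommGroupWithZero Γ] (v : Valuation ℂ Γ), v 2 < 1 →
          v (anOrder m (F 1)) ≤ 1 ∧ (v (anOrder m (F 1)) = 1 ↔ TwoPart m)) ∧
    -- at least one prime factor `3` or `5` modulo `8`
    (∀ (S : Set ℕ) (k l : ℕ), 1 ≤ l → (0 < k → Dense S fun p => p % 8 = 1) →
      Dense S (fun p => p % 8 = 3 ∨ p % 8 = 5) → Law (Family S k l) (k + l) (P k)) ∧
    -- all prime factors `1` modulo `8`
    (∀ (S : Set ℕ) (b r : ℕ), 1 ≤ b + r → (0 < b → Dense S fun p => p % 16 = 1) →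
      (0 < r → Dense S fun p => p % 16 = 9) →
      Law (SplitFamily S b r) (b + r)
        (if r = 0 then 0 else if Odd r then P (b + r - 1) else P (b + r - 2))) ∧
    -- the weak conjecture
    (∀ (F : ℕ → Prop) (n : ℕ) (a ε : ℝ), Law F n a → 0 < ε → ∀ᶠ X : ℕ in atTop,
      (a - ε) * (count F X : ℝ) ≤ (count (fun m => F m ∧ WeakZero m) X : ℝ)) ∧
    -- the residue classes modulo odd numbers satisfy all the conditions
    (∀ q c : ℕ, Odd q → Nat.Coprime c q →
      Dense {p | p % q = c % q} (fun p => p % 8 = 1) ∧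
      Dense {p | p % q = c % q} (fun p => p % 8 = 3 ∨ p % 8 = 5) ∧
      Dense {p | p % q = c % q} (fun p => p % 16 = 1) ∧
      Dense {p | p % q = c % q} (fun p => p % 16 = 9)) := by
  refine ⟨card_symm_matrices, fun S m h => ⟨weak_of, ?_⟩, law_mixed, law_split,
    fun F n a ε h hε => ev_weak h hε, fun q c hq hc => ⟨?_, ?_, ?_, ?_⟩⟩
  · obtain ⟨h1, h2, F, h3, h4, h5⟩ :=
      Pool.Agent.Results.MP_92892c_nt.TwoPartTwistsSqrtNegTwo.core (class_of h)
    refine ⟨h2.trans h1.symm, F, h3, h4, fun Γ _ v hv => ?_⟩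
    rw [h2]
    exact h5 Γ v hv
  · exact dense_class hq hc _ 1 (by norm_num) (by norm_num) fun p hp => by omega
  · exact dense_class hq hc _ 3 (by norm_num) (by norm_num) fun p hp => by omega
  · exact dense_class hq hc _ 1 (by norm_num) (by norm_num) fun p hp => by omega
  · exact dense_class hq hc _ 9 (by norm_num) (by norm_num) fun p hp => by omega

end Pool.Agent.Results.MP_8b7eba_nt.FixedNumberSqrtNegTwo
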